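import Pool.Agent.Work.MP_36677d_ray.B_RAYQ
import Pool.Agent.Work.MP_36677d_ray.B_RPAR
import Pool.Agent.Work.MP_36677d_ray.B_FLB
import Pool.Agent.Work.MP_36677d_ray.B_KAP
import Pool.Agent.Work.MP_36677d_ray.B_RDD

/-! # Rays in hereditarily unicoherent continua with countably many path components (helper57) -/

set_option autoImplicit false

open Set Filter Topology

namespace Pool.FA57

open Pool.TL94 Pool.RY

/-! ## Intersections of continua -/

theorem conn_dir {X ι : Type} [TopologicalSpace X] [T2Space X] [Nonempty ι] (Y : ι → Set X)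
    (hd : Directed (fun a b : Set X => b ⊆ a) Y) (hc : ∀ i, IsCompact (Y i))
    (hconn : ∀ i, IsPreconnected (Y i)) : IsPreconnected (⋂ i, Y i) := by
  rw [isPreconnected_closed_iff]
  intro t t' ht ht' hsub h1 h2
  by_contra hne
  obtain ⟨i0⟩ := (inferInstance : Nonempty ι)
  have hcl : IsCompact (⋂ i, Y i) := by
    refine (hc i0).of_isClosed_subset (isClosed_iInter fun i => (hc i).isClosed) ?_
    exact Set.iInter_subset _ i0
  have hdj : Disjoint ((⋂ i, Y i) ∩ t) ((⋂ i, Y i) ∩ t') := by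
    rw [Set.disjoint_left]
    rintro x ⟨hx, hx1⟩ ⟨-, hx2⟩
    exact hne ⟨x, hx, hx1, hx2⟩
  obtain ⟨U, V, hU, hV, hsU, hsV, hUV⟩ :=
    SeparatedNhds.of_isCompact_isCompact (hcl.inter_right ht) (hcl.inter_right ht') hdj
  have hcov : ∀ x ∈ ⋂ i, Y i, U ∪ V ∈ 𝓝 x := by
    intro x hx
    refine (hU.union hV).mem_nhds ?_
    rcases hsub hx with h | h
    · exact Or.inl (hsU ⟨hx, h⟩)
    · exact Or.inr (hsV ⟨hx, h⟩)
  obtain ⟨n, hn⟩ := exists_subset_nhds_of_isCompact (V := Y) hd hc hcov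
  obtain ⟨x, hx, hxt⟩ := h1
  obtain ⟨y, hy, hyt⟩ := h2
  obtain ⟨z, -, hzU, hzV⟩ := hconn n U V hU hV hn
    ⟨x, Set.mem_iInter.1 hx n, hsU ⟨hx, hxt⟩⟩ ⟨y, Set.mem_iInter.1 hy n, hsV ⟨hy, hyt⟩⟩
  exact Set.disjoint_left.1 hUV hzU hzV

variable {M : Type} [MetricSpace M]

/-- an increasing unbounded sequence in the path component of `p` -/
structure Sq (p : M) (z : ℕ → M) : Prop where
  j : ∀ n, Joined p (z n)
  up : ∀ n, z n ∈ seg p (z (n + 1))
  unb : ∀ w, Joined p w → ∃ n, z n ∉ seg p w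

/-- the limit set -/
def Lm (z : ℕ → M) : Set M := ⋂ n, Tl z n

/-- `z` leaves `Q` -/
def Ev (z : ℕ → M) (Q : Set M) : Prop := ∃ l₀, ∀ l, l₀ ≤ l → z l ∉ Q

theorem Ev.union {z : ℕ → M} {Q Q' : Set M} (h : Ev z Q) (h' : Ev z Q') : Ev z (Q ∪ Q') := by
  obtain ⟨a, ha⟩ := h
  obtain ⟨b, hb⟩ := h'
  refine ⟨max a b, fun l hl => ?_⟩
  rintro (h1 | h1)
  · exact ha l ((le_max_left _ _).trans hl) h1
  · exact hb l ((le_max_right _ _).trans hl) h1

variable {p : M} {z : ℕ → M}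

theorem Sq.mono (h : Sq p z) {n m : ℕ} (hnm : n ≤ m) : z n ∈ seg p (z m) := by
  induction m, hnm using Nat.le_induction with
  | base => exact right_mem _ _
  | succ m _ ih => exact seg_trans ih (h.up m)

theorem Sq.jj (h : Sq p z) (n m : ℕ) : Joined (z n) (z m) := (h.j n).symm.trans (h.j m)

theorem mem_tl {n m : ℕ} (h : n ≤ m) : z m ∈ Tl z n := seg_sub_tl h (right_mem _ _)

theorem Sq.late (h : Sq p z) {w : M} (hw : Joined p w) : ∃ N, ∀ n, N ≤ n → z n ∉ seg p w := by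
  obtain ⟨N, hN⟩ := h.unb w hw
  exact ⟨N, fun n hn h1 => hN (seg_trans (h.mono hn) h1)⟩

variable [CompactSpace M]

theorem Sq.ct (hHU : HU M) (h : Sq p z) (n : ℕ) : Cont (Tl z n) := cont_tl hHU h.jj n

theorem Sq.anti (hHU : HU M) (h : Sq p z) {n m : ℕ} (hnm : n ≤ m) : Tl z m ⊆ Tl z n :=
  tl_sub (h.ct hHU n) fun _ hk => mem_tl (hnm.trans hk)

theorem Sq.btw (hHU : HU M) (h : Sq p z) {a b c : ℕ} (hab : a ≤ b) (hbc : b ≤ c) :
    z b ∈ seg (z a) (z c) := seg_btw hHU (h.j b) (h.mono hab) (h.mono hbc)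

theorem Sq.tail (hHU : HU M) (h : Sq p z) {Q : Set M} (hQ : Cont Q) (hf : ¬ Ev z Q) :
    ∃ l₁, Tl z l₁ ⊆ Q := by
  have hf' : ∀ l₀, ∃ l, l₀ ≤ l ∧ z l ∈ Q := by
    intro l₀
    by_contra hcon
    push Not at hcon
    exact hf ⟨l₀, hcon⟩
  obtain ⟨l₁, -, h1⟩ := hf' 0
  refine ⟨l₁, tl_sub hQ fun k hk => ?_⟩
  obtain ⟨l', hl', h2⟩ := hf' k
  exact seg_sub hQ h1 h2 (h.btw hHU hk hl')

theorem Sq.lm_nonempty (hHU : HU M) (h : Sq p z) : (Lm z).Nonempty := by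
  refine IsCompact.nonempty_iInter_of_directed_nonempty_isCompact_isClosed (fun n => Tl z n)
    ?_ (fun n => ⟨z n, mem_tl le_rfl⟩) (fun n => (h.ct hHU n).cpt) (fun n => isClosed_closure)
  intro n m
  exact ⟨max n m, h.anti hHU (le_max_left _ _), h.anti hHU (le_max_right _ _)⟩

theorem Sq.lm_cont (hHU : HU M) (h : Sq p z) : Cont (Lm z) := by
  refine ⟨?_, ?_⟩
  · exact (isClosed_iInter fun n => isClosed_closure).isCompact
  · refine conn_dir (fun n => Tl z n) ?_ (fun n => (h.ct hHU n).cpt) (fun n => (h.ct hHU n).con)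
    intro n m
    exact ⟨max n m, h.anti hHU (le_max_left _ _), h.anti hHU (le_max_right _ _)⟩

theorem lm_sub (n : ℕ) : Lm z ⊆ Tl z n := iInter_subset _ n

theorem Sq.ev (hHU : HU M) (h : Sq p z) {Q : Set M} (hQ : Cont Q) (hL : ¬ Lm z ⊆ Q) : Ev z Q := by
  by_contra hcon
  obtain ⟨l₁, h1⟩ := h.tail hHU hQ hcon
  exact hL ((lm_sub l₁).trans h1)

/-- Step 5: the limit set is disjoint from the path component of `p` -/
theorem Sq.disj (hHU : HU M) (h : Sq p z) (a : ℕ → M) (ha : ∀ x, ∃ n, Joined (a n) x) {q : M}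
    (hq : q ∈ Lm z) (hpq : Joined p q) : False := by
  classical
  rw [Lm, mem_iInter] at hq
  obtain ⟨N, hNn⟩ := h.late hpq
  have hA : ∀ n m, N ≤ n → z n ∈ Tl z m := by
    intro n m hn
    have h1 : ∀ m, n ≤ m → z n ∈ Tl z m := by
      intro m hm
      rcases h.mono hm (Tl z m ∪ seg p q) ((h.ct hHU m).union (cont_seg hHU hpq)
        ⟨q, hq m, right_mem _ _⟩) (Or.inr (left_mem _ _)) (Or.inl (mem_tl le_rfl)) with h | h
      · exact h
      · exact absurd h (hNn n hn)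
    rcases le_total n m with h2 | h2
    · exact h1 m h2
    · exact h.anti hHU h2 (h1 n le_rfl)
  have hB : ∀ m, Tl z N ⊆ Tl z m := fun m => tl_sub (h.ct hHU m) fun k hk => hA k m hk
  -- continua with nonempty interior
  have hC : ∀ D : Set M, Cont D → D ⊆ Tl z N → ∀ V : Set M, IsOpen V → (V ∩ Tl z N).Nonempty →
      V ∩ Tl z N ⊆ D → Tl z N ⊆ D := by
    intro D hD hDN V hV hVN hVD
    have h1 : ∀ n, N ≤ n → ∃ m, n ≤ m ∧ ∃ d ∈ D, d ∈ seg (z n) (z m) := by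
      intro n hn
      obtain ⟨x, hxV, hxN⟩ := hVN
      obtain ⟨d, hdV, hd⟩ := mem_closure_iff.1 (hB n hxN) V hV hxV
      obtain ⟨⟨m, hm⟩, hdm⟩ := mem_iUnion.1 hd
      exact ⟨m, hm, d, hVD ⟨hdV, h.anti hHU hn (seg_sub_tl hm hdm)⟩, hdm⟩
    obtain ⟨m, hm, d, hdD, hd⟩ := h1 N le_rfl
    have h2 : ∀ k, m ≤ k → z k ∈ D := by
      intro k hk
      obtain ⟨m', hm', d', hd'D, hd'⟩ := h1 k (hm.trans hk)
      have h3 : d ∈ seg p (z k) := by
        have h4 : d ∈ seg p (z m) :=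
          seg_sub (cont_seg hHU (h.j m)) (h.mono hm) (right_mem _ _) hd
        exact seg_trans h4 (h.mono hk)
      have h5 : z k ∈ seg p d' := seg_btw' hHU (h.jj k m') (h.mono hm') hd'
      exact seg_sub hD hdD hd'D (seg_btw hHU (h.j k) h3 h5)
    exact (hB m).trans (tl_sub hD h2)
  -- the tail is not a segment
  obtain ⟨n1, hn1, hne1⟩ : ∃ n1, N ≤ n1 ∧ z n1 ≠ z N := by
    by_contra hcon
    push Not at hcon
    obtain ⟨n, hn⟩ := h.unb (z N) (h.j N)
    rcases le_total n N with h1 | h1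
    · exact hn (h.mono h1)
    · rw [hcon n h1] at hn
      exact hn (right_mem _ _)
  have hD : ∀ b ∈ Tl z N, ∀ x ∈ Tl z N, Joined b x → ∃ y ∈ Tl z N, y ∉ seg b x := by
    intro b hb x hx hbx
    by_contra hcon
    push Not at hcon
    have hxN : b ≠ x := by
      intro h1
      have h2 := hcon (z n1) (mem_tl hn1)
      have h3 := hcon (z N) (mem_tl le_rfl)
      rw [← h1, seg_self] at h2 h3
      exact hne1 (h2.trans h3.symm)
    obtain ⟨γ, hγ⟩ := exists_arcFn hbx hxN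
    have hsegT : seg b x ⊆ Tl z N := seg_sub (h.ct hHU N) hb hx
    have himg : seg b x = γ '' Icc 0 1 := by
      rw [← hγ.seg_eq hHU le_rfl le_rfl zero_le_one, hγ.zero, hγ.one]
    have hclosed : IsClosed (γ '' Icc (1 / 2) 1) :=
      (hγ.cont_image (by norm_num) le_rfl).cpt.isClosed
    have h1 := hC (γ '' Icc 0 (1 / 2)) (hγ.cont_image le_rfl (by norm_num))
      ((image_mono (Icc_subset_Icc le_rfl (by norm_num))).trans (himg ▸ hsegT))
      (γ '' Icc (1 / 2) 1)ᶜ hclosed.isOpen_compl ⟨b, ?_, hb⟩ ?_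
    · obtain ⟨s, hs, hsx⟩ := h1 hx
      have h2 := hγ.inj ⟨hs.1, hs.2.trans (by norm_num)⟩ ⟨zero_le_one, le_rfl⟩
        (hsx.trans hγ.one.symm)
      have := hs.2
      rw [h2] at this
      norm_num at this
    · rintro ⟨s, hs, hsx⟩
      have h2 := hγ.inj ⟨le_trans (by norm_num) hs.1, hs.2⟩ ⟨le_rfl, zero_le_one⟩
        (hsx.trans hγ.zero.symm)
      have := hs.1
      rw [h2] at this
      norm_num at this
    · rintro y ⟨hy1, hy2⟩
      have h2 := hcon y hy2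
      rw [himg] at h2
      obtain ⟨s, hs, rfl⟩ := h2
      rcases le_total s (1 / 2) with h3 | h3
      · exact ⟨s, ⟨hs.1, h3⟩, rfl⟩
      · exact absurd ⟨s, ⟨h3, hs.2⟩, rfl⟩ hy1
  -- representatives of the path components
  obtain ⟨b, hbT, hbx⟩ : ∃ b : ℕ → M, (∀ j, b j ∈ Tl z N) ∧
      ∀ x ∈ Tl z N, ∃ j, Joined (b j) x := by
    refine ⟨fun j => if hj : ∃ x ∈ Tl z N, Joined (a j) x then hj.choose else z N, ?_, ?_⟩
    · intro j
      by_cases hj : ∃ x ∈ Tl z N, Joined (a j) x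
      · simp only [dif_pos hj]
        exact hj.choose_spec.1
      · simp only [dif_neg hj]
        exact mem_tl le_rfl
    · intro x hx
      obtain ⟨j, hjx⟩ := ha x
      have hj : ∃ x ∈ Tl z N, Joined (a j) x := ⟨x, hx, hjx⟩
      refine ⟨j, ?_⟩
      simp only [dif_pos hj]
      exact hj.choose_spec.2.symm.trans hjx
  -- Baire category
  obtain ⟨U, hUo, hUb⟩ := exists_basis_seq (M := M)
  have hTc : IsClosed (Tl z N) := isClosed_closure
  have : CompactSpace (Tl z N) := isCompact_iff_compactSpace.1 hTc.isCompact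
  have : Nonempty (Tl z N) := ⟨⟨z N, mem_tl le_rfl⟩⟩
  obtain ⟨F, hF⟩ : ∃ F : ℕ → ℕ → Set M, ∀ i j, F i j =
      closure (connectedComponentIn (Tl z N \ U i) (b j)) := ⟨_, fun _ _ => rfl⟩
  have hFsub : ∀ i j, F i j ⊆ Tl z N \ U i := by
    intro i j
    rw [hF]
    exact closure_minimal (connectedComponentIn_subset _ _) (hTc.sdiff (hUo i))
  obtain ⟨i, hi⟩ := nonempty_interior_of_iUnion_of_closed
    (f := fun i : {i : ℕ // (U i ∩ Tl z N).Nonempty} × ℕ =>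
      ((↑) : Tl z N → M) ⁻¹' F i.1 i.2)
    (fun i => by
      rw [hF]
      exact isClosed_closure.preimage continuous_subtype_val) (by
      ext ⟨x, hx⟩
      simp only [mem_iUnion, mem_preimage, mem_univ, iff_true]
      obtain ⟨j, hj⟩ := hbx x hx
      obtain ⟨y, hy, hyx⟩ := hD (b j) (hbT j) x hx hj
      obtain ⟨n, hn1, hn2⟩ := hUb y (seg (b j) x)ᶜ (isClosed_seg _ _).isOpen_compl hyx
      refine ⟨⟨⟨n, y, hn1, hy⟩, j⟩, ?_⟩
      show x ∈ F n j
      rw [hF]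
      apply subset_closure
      refine (cont_seg hHU hj).con.subset_connectedComponentIn (left_mem _ _) ?_
        (right_mem _ _)
      intro y' hy'
      exact ⟨seg_sub (h.ct hHU N) (hbT j) hx hy', fun h => hn2 h hy'⟩)
  obtain ⟨⟨x, hx⟩, hxi⟩ := hi
  obtain ⟨O, hO1, hO2, hO3⟩ := mem_interior.1 hxi
  obtain ⟨V, hV, rfl⟩ := isOpen_induced_iff.1 hO2
  have hcF : Cont (F i.1 i.2) := by
    rw [hF]
    exact ⟨isClosed_closure.isCompact, isPreconnected_connectedComponentIn.closure⟩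
  have h1 := hC (F i.1 i.2) hcF ((hFsub i.1 i.2).trans sdiff_subset) V hV ⟨x, hO3, hx⟩ (by
    rintro y ⟨hy1, hy2⟩
    exact hO1 (show (⟨y, hy2⟩ : Tl z N) ∈ ((↑) : Tl z N → M) ⁻¹' V from hy1))
  obtain ⟨y, hy1, hy2⟩ := i.1.2
  exact ((hFsub i.1 i.2) (h1 hy2)).2 hy1

/-- (Irr): a continuum which meets the path component of `p` and the limit set contains a tail -/
theorem Sq.irr (hHU : HU M) (h : Sq p z) (hdis : ∀ q ∈ Lm z, ¬ Joined p q) {C : Set M}
    (hC : Cont C) {q : M} (hq : q ∈ C) (hpq : Joined p q) (hCL : (C ∩ Lm z).Nonempty) :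
    ∃ l₀, ∀ l, l₀ ≤ l → z l ∈ C := by
  obtain ⟨c, hcC, hcL⟩ := hCL
  obtain ⟨N, hN⟩ := h.late hpq
  refine ⟨N, fun l hl => ?_⟩
  by_contra hlC
  refine hdis (z l) ?_ (h.j l)
  have h1 : ∀ m, l ≤ m → z l ∈ Tl z m := by
    intro m hm
    have h2 : Cont (C ∪ Tl z m) := hC.union (h.ct hHU m) ⟨c, hcC, lm_sub m hcL⟩
    have h3 : Cont (seg p q ∪ (C ∪ Tl z m)) :=
      (cont_seg hHU hpq).union h2 ⟨q, right_mem _ _, Or.inl hq⟩
    rcases h.mono hm _ h3 (Or.inl (left_mem _ _)) (Or.inr (Or.inr (mem_tl le_rfl)))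
      with h4 | h4 | h4
    · exact absurd h4 (hN l hl)
    · exact absurd h4 hlC
    · exact h4
  rw [Lm, mem_iInter]
  intro m
  rcases le_total l m with h2 | h2
  · exact h1 m h2
  · exact h.anti hHU h2 (h1 l le_rfl)

/-- (4'): the limit set lies in its image -/
theorem Sq.sub_image (hHU : HU M) (h : Sq p z) {H : M → ℝ → M}
    (cH : Continuous (fun q : M × ℝ => H q.1 q.2))
    (hPH : ∀ x, Joined p x → ∀ t ∈ Icc (0:ℝ) 1, Joined p (H x t))
    (hpar : ∀ n, ∃ t ∈ Icc (0:ℝ) 1, z n ∈ seg p (H (z n) t)) {y : M} (hy : y ∈ Lm z) :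
    ∃ x ∈ Lm z, ∃ t ∈ Icc (0:ℝ) 1, H x t = y := by
  have hB : ∀ n, Cont ((fun q : M × ℝ => H q.1 q.2) '' (Tl z n ×ˢ Icc (0:ℝ) 1)) := fun n =>
    ⟨((h.ct hHU n).cpt.prod isCompact_Icc).image cH,
      ((h.ct hHU n).con.prod isPreconnected_Icc).image _ cH.continuousOn⟩
  choose t ht htz using hpar
  have hqB : ∀ n m, n ≤ m → H (z m) (t m) ∈
      (fun q : M × ℝ => H q.1 q.2) '' (Tl z n ×ˢ Icc (0:ℝ) 1) := fun n m hnm =>
    ⟨(z m, t m), ⟨mem_tl hnm, ht m⟩, rfl⟩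
  have hLB : ∀ n, Lm z ⊆ (fun q : M × ℝ => H q.1 q.2) '' (Tl z n ×ˢ Icc (0:ℝ) 1) := by
    intro n
    have hjn : Joined p (H (z n) (t n)) := hPH _ (h.j n) _ (ht n)
    obtain ⟨N, hN⟩ := h.late hjn
    refine (lm_sub (max n N)).trans (tl_sub (hB n) fun l hl => ?_)
    have hnl : n ≤ l := (le_max_left _ _).trans hl
    have hNl : N ≤ l := (le_max_right _ _).trans hl
    have h3 := (cont_seg hHU hjn).union (hB n) ⟨_, right_mem _ _, hqB n n le_rfl⟩
    rcases htz l _ h3 (Or.inl (left_mem _ _)) (Or.inr (hqB n l hnl)) with h4 | h4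
    · exact absurd h4 (hN l hNl)
    · exact h4
  have h5 : ∀ n, ∃ q : M × ℝ, q ∈ Tl z n ×ˢ Icc (0:ℝ) 1 ∧ H q.1 q.2 = y := by
    intro n
    obtain ⟨q, hq, hqy⟩ := hLB n hy
    exact ⟨q, hq, hqy⟩
  have h6 : (⋂ n, (Tl z n ×ˢ Icc (0:ℝ) 1) ∩ {q : M × ℝ | H q.1 q.2 = y}).Nonempty := by
    have hcl : IsClosed {q : M × ℝ | H q.1 q.2 = y} := isClosed_eq cH continuous_const
    refine IsCompact.nonempty_iInter_of_directed_nonempty_isCompact_isClosed
      (fun n => (Tl z n ×ˢ Icc (0:ℝ) 1) ∩ {q : M × ℝ | H q.1 q.2 = y}) ?_ ?_ ?_ ?_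
    · intro n m
      refine ⟨max n m, ?_, ?_⟩
      · exact inter_subset_inter_left _ (prod_mono_left (h.anti hHU (le_max_left _ _)))
      · exact inter_subset_inter_left _ (prod_mono_left (h.anti hHU (le_max_right _ _)))
    · intro n
      obtain ⟨q, hq, hqy⟩ := h5 n
      exact ⟨q, hq, hqy⟩
    · intro n
      exact ((h.ct hHU n).cpt.prod isCompact_Icc).inter_right hcl
    · intro n
      exact ((isClosed_closure.prod isClosed_Icc)).inter hcl
  obtain ⟨q, hq⟩ := h6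
  rw [mem_iInter] at hq
  refine ⟨q.1, ?_, q.2, (hq 0).1.2, (hq 0).2⟩
  rw [Lm, mem_iInter]
  exact fun n => (hq n).1.1

end Pool.FA57
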