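import Pool.Agent.Work.MP_36677d_fa.FA1

/-! # Closed relations for the category argument; two points in the limit set (helper57) -/

set_option autoImplicit false

open Set Filter Topology

namespace Pool.FA57

open Pool.TL94 Pool.RY

variable {M : Type} [MetricSpace M] {p : M} {z : ℕ → M}

/-! ## The rays -/

theorem ray_joined {H : M → ℝ → M} {v : M → ℝ → ℝ} {e : ℝ} {N : ℕ} {r : ℝ → M}
    (hr : Ray H v e N p r) {s : ℝ} (hs : 0 ≤ s) : Joined p (r s) := by
  have := RDD_joined_img (convex_Ici (0 : ℝ)) hr.cont (mem_Ici.2 le_rfl) (mem_Ici.2 hs)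
  rwa [hr.zero] at this

theorem ray_sq [CompactSpace M] (hHU : HU M) {H : M → ℝ → M} {v : M → ℝ → ℝ} {e : ℝ} {N : ℕ}
    {r : ℝ → M} (hr : Ray H v e N p r) : Sq p (fun n : ℕ => r n) where
  j n := ray_joined hr (Nat.cast_nonneg n)
  up n := (KAP_mem hHU hr (Nat.cast_nonneg n) (Nat.cast_nonneg _)).2 (by push_cast; linarith)
  unb w hw := by
    obtain ⟨s, hs, h1⟩ := hr.unb w hw
    obtain ⟨n, hn⟩ := exists_nat_ge s
    refine ⟨n, fun h2 => h1 (seg_trans ?_ h2)⟩
    exact (KAP_mem hHU hr hs (Nat.cast_nonneg n)).2 hn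

theorem ray_tl {r : ℝ → M} (hc : ContinuousOn r (Ici 0)) (n : ℕ) :
    Tl (fun n : ℕ => r n) n ⊆ closure (r '' Ici (n : ℝ)) := by
  refine closure_mono (iUnion_subset ?_)
  rintro ⟨m, hm⟩
  have hnm : (n : ℝ) ≤ m := by exact_mod_cast hm
  have hn0 : (0 : ℝ) ≤ n := Nat.cast_nonneg n
  have h1 : ContinuousOn r (Icc (n : ℝ) m) := hc.mono fun x hx => hn0.trans hx.1
  have h2 : Cont (r '' Icc (n : ℝ) m) :=
    ⟨isCompact_Icc.image_of_continuousOn h1, isPreconnected_Icc.image _ h1⟩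
  refine (seg_sub h2 ⟨n, ⟨le_rfl, hnm⟩, rfl⟩ ⟨m, ⟨hnm, le_rfl⟩, rfl⟩).trans ?_
  exact image_mono fun x hx => hx.1

theorem ray_mem_tl [CompactSpace M] (hHU : HU M) {H : M → ℝ → M} {v : M → ℝ → ℝ} {e : ℝ} {N : ℕ}
    {r : ℝ → M} (hr : Ray H v e N p r) {n : ℕ} {s : ℝ} (hs : (n : ℝ) ≤ s) :
    r s ∈ Tl (fun n : ℕ => r n) n := by
  have hn0 : (0 : ℝ) ≤ n := Nat.cast_nonneg n
  obtain ⟨m, hm⟩ := exists_nat_ge s
  have hnm : n ≤ m := by exact_mod_cast hs.trans hm
  refine seg_sub_tl hnm ?_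
  exact seg_btw hHU (ray_joined hr (hn0.trans hs)) ((KAP_mem hHU hr hn0 (hn0.trans hs)).2 hs)
    ((KAP_mem hHU hr (hn0.trans hs) (Nat.cast_nonneg m)).2 hm)

/-- the limit set has two points -/
theorem ray_two [CompactSpace M] (hHU : HU M) {H : M → ℝ → M} {v : M → ℝ → ℝ} {e : ℝ} {N : ℕ}
    {r : ℝ → M} (hr : Ray H v e N p r)
    (hdis : ∀ q ∈ Lm (fun n : ℕ => r n), ¬ Joined p q) :
    ∃ y₁ ∈ Lm (fun n : ℕ => r n), ∃ y₂ ∈ Lm (fun n : ℕ => r n), y₁ ≠ y₂ := by
  have hsq := ray_sq hHU hr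
  obtain ⟨y, hy⟩ := hsq.lm_nonempty hHU
  by_contra hcon
  push Not at hcon
  have hall : ∀ x ∈ Lm (fun n : ℕ => r n), x = y := fun x hx => hcon x hx y hy
  have hlim : Tendsto r atTop (𝓝 y) := by
    rw [tendsto_def]
    intro V hV
    obtain ⟨n, hn⟩ := exists_subset_nhds_of_isCompact (U := V)
      (V := fun n => Tl (fun n : ℕ => r n) n) (by
        intro n m
        exact ⟨max n m, hsq.anti hHU (le_max_left _ _), hsq.anti hHU (le_max_right _ _)⟩)
      (fun n => (hsq.ct hHU n).cpt) (fun x hx => by rw [hall x hx]; exact hV)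
    filter_upwards [eventually_ge_atTop (n : ℝ)] with s hs
    exact hn (ray_mem_tl hHU hr hs)
  have h1 : ContinuousOn (fun t : ℝ => r (t / (1 - t))) (Ioo 0 1) := by
    refine hr.cont.comp ?_ ?_
    · refine ContinuousOn.div continuousOn_id (by fun_prop) ?_
      intro t ht
      have := ht.2
      exact (sub_pos.2 this).ne'
    · intro t ht
      exact div_nonneg ht.1.le (sub_nonneg.2 ht.2.le)
  have h2 : Tendsto (fun t : ℝ => r (t / (1 - t))) (𝓝[>] 0) (𝓝 p) := by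
    have h3 : Tendsto (fun t : ℝ => t / (1 - t)) (𝓝[>] 0) (𝓝[Ici 0] 0) := by
      refine tendsto_nhdsWithin_iff.2 ⟨?_, ?_⟩
      · have h4 : ContinuousAt (fun t : ℝ => t / (1 - t)) 0 := by
          refine ContinuousAt.div continuousAt_id (by fun_prop) (by norm_num)
        have h5 := h4.tendsto
        simp only [sub_zero, div_one] at h5
        exact h5.mono_left nhdsWithin_le_nhds
      · filter_upwards [Ioo_mem_nhdsGT (show (0:ℝ) < 1 by norm_num)] with t ht
        exact div_nonneg ht.1.le (sub_nonneg.2 ht.2.le)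
    have h6 := (hr.cont 0 (mem_Ici.2 le_rfl)).tendsto.comp h3
    rw [hr.zero] at h6
    exact h6
  have h3 : Tendsto (fun t : ℝ => r (t / (1 - t))) (𝓝[<] 1) (𝓝 y) := by
    refine hlim.comp ?_
    have h4 : Tendsto (fun t : ℝ => t) (𝓝[<] 1) (𝓝 1) := nhdsWithin_le_nhds
    have h5 : Tendsto (fun t : ℝ => (1 - t)⁻¹) (𝓝[<] 1) atTop := by
      refine tendsto_inv_nhdsGT_zero.comp (tendsto_nhdsWithin_iff.2 ⟨?_, ?_⟩)
      · have h6 : ContinuousAt (fun t : ℝ => 1 - t) 1 := by fun_prop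
        have h7 := h6.tendsto
        simp only [sub_self] at h7
        exact h7.mono_left nhdsWithin_le_nhds
      · filter_upwards [self_mem_nhdsWithin] with t ht
        exact sub_pos.2 (mem_Iio.1 ht)
    have h6 := h4.pos_mul_atTop one_pos h5
    refine h6.congr fun t => ?_
    rw [div_eq_mul_inv]
  have h4 := continuousOn_Icc_extendFrom_Ioo h1 h2 h3
  refine hdis y hy ⟨Path.ofLine h4 ?_ ?_⟩
  · exact eq_lim_at_left_extendFrom_Ioo zero_lt_one h2
  · exact eq_lim_at_right_extendFrom_Ioo zero_lt_one h3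

/-! ## Closed relations -/

/-- the points joined with `A` by a continuum disjoint from `U` -/
def stp (U A : Set M) : Set M := {x | ∃ C, Cont C ∧ x ∈ C ∧ (C ∩ A).Nonempty ∧ Disjoint C U}

theorem isClosed_stp [CompactSpace M] {U A : Set M} (hU : IsOpen U) (hA : IsClosed A) :
    IsClosed (stp U A) := by
  have hUc : IsClosed Uᶜ := hU.isClosed_compl
  have : CompactSpace (Uᶜ : Set M) := isCompact_iff_compactSpace.1 hUc.isCompact
  obtain ⟨q, hq⟩ : ∃ q : (Uᶜ : Set M) → ConnectedComponents (Uᶜ : Set M),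
      q = ConnectedComponents.mk := ⟨_, rfl⟩
  have hqc : Continuous q := by rw [hq]; exact ConnectedComponents.continuous_coe
  have hqe : ∀ x y, q x = q y ↔ x ∈ connectedComponent y := by
    intro x y
    rw [hq]
    exact ConnectedComponents.coe_eq_coe'
  have h1 : IsClosed (q ⁻¹' (q '' (Subtype.val ⁻¹' A))) :=
    ((hA.preimage continuous_subtype_val).isCompact.image hqc).isClosed.preimage hqc
  have h2 : stp U A = Subtype.val '' (q ⁻¹' (q '' (Subtype.val ⁻¹' A))) := by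
    ext x
    constructor
    · rintro ⟨C, hC, hxC, ⟨a, haC, haA⟩, hd⟩
      have hCU : C ⊆ Uᶜ := fun y hy hyU => Set.disjoint_left.1 hd hy hyU
      refine ⟨⟨x, hCU hxC⟩, ⟨⟨a, hCU haC⟩, haA, ?_⟩, rfl⟩
      rw [eq_comm, hqe]
      have h3 : IsPreconnected ((↑) ⁻¹' C : Set (Uᶜ : Set M)) := by
        rw [← Topology.IsInducing.subtypeVal.isPreconnected_image, Subtype.image_preimage_coe,
          inter_eq_right.2 hCU]
        exact hC.con
      exact h3.subset_connectedComponent (show (⟨a, hCU haC⟩ : (Uᶜ : Set M)) ∈ _ from haC) hxC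
    · rintro ⟨x', ⟨a', ha', hxa⟩, rfl⟩
      rw [eq_comm, hqe] at hxa
      refine ⟨Subtype.val '' connectedComponent a', ⟨?_, ?_⟩, ⟨x', hxa, rfl⟩, ⟨a'.1, ⟨a',
        mem_connectedComponent, rfl⟩, ha'⟩, ?_⟩
      · exact isClosed_connectedComponent.isCompact.image continuous_subtype_val
      · exact isPreconnected_connectedComponent.image _ continuous_subtype_val.continuousOn
      · rw [Set.disjoint_left]
        rintro _ ⟨y, -, rfl⟩
        exact y.2
  rw [h2]
  exact hUc.isClosedEmbedding_subtypeVal.isClosedMap _ h1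

/-- iterated steps -/
def SS (U V A : Set M) : ℕ → Set M
  | 0 => A
  | n + 1 => SS U V A n ∪ (stp U (SS U V A n) ∪ stp V (SS U V A n))

theorem isClosed_SS [CompactSpace M] {U V A : Set M} (hU : IsOpen U) (hV : IsOpen V)
    (hA : IsClosed A) (n : ℕ) : IsClosed (SS U V A n) := by
  induction n with
  | zero => exact hA
  | succ n ih => exact ih.union ((isClosed_stp hU ih).union (isClosed_stp hV ih))

theorem ss_good {U V : Set M} {a : M} (hU : ∀ C, Cont C → Disjoint C U → Ev z C)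
    (hV : ∀ C, Cont C → Disjoint C V → Ev z C) (ha : Ev z {a}) (n : ℕ) :
    ∀ x ∈ SS U V {a} n, ∃ Q, Cont Q ∧ a ∈ Q ∧ x ∈ Q ∧ Ev z Q := by
  induction n with
  | zero =>
    intro x hx
    have hx' : x = a := hx
    exact ⟨{a}, cont_singleton a, rfl, by rw [hx']; rfl, ha⟩
  | succ n ih =>
    rintro x (hx | ⟨C, hC, hxC, ⟨c, hcC, hc⟩, hd⟩ | ⟨C, hC, hxC, ⟨c, hcC, hc⟩, hd⟩)
    · exact ih x hx
    · obtain ⟨Q, hQ, haQ, hcQ, hev⟩ := ih c hc
      exact ⟨Q ∪ C, hQ.union hC ⟨c, hcQ, hcC⟩, Or.inl haQ, Or.inr hxC, hev.union (hU C hC hd)⟩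
    · obtain ⟨Q, hQ, haQ, hcQ, hev⟩ := ih c hc
      exact ⟨Q ∪ C, hQ.union hC ⟨c, hcQ, hcC⟩, Or.inl haQ, Or.inr hxC, hev.union (hV C hC hd)⟩

theorem ss_joined {y₁ y₂ : M} (hy : y₁ ≠ y₂) {a x : M} (hax : Joined a x) :
    ∃ n, x ∈ SS (Metric.ball y₁ (dist y₁ y₂ / 3)) (Metric.ball y₂ (dist y₁ y₂ / 3)) {a} n := by
  set ρ : ℝ := dist y₁ y₂ / 3 with hρ
  have hρ0 : 0 < ρ := by
    have := dist_pos.2 hy
    positivity
  obtain ⟨γ⟩ := hax
  have hγc : Continuous γ.extend := γ.continuous_extend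
  have huc := isCompact_Icc.uniformContinuousOn_of_continuous
    (hγc.continuousOn (s := Icc (0:ℝ) 1))
  obtain ⟨δ, hδ, hδ'⟩ := Metric.uniformContinuousOn_iff.1 huc ρ hρ0
  obtain ⟨N, hN⟩ := exists_nat_gt (1 / δ)
  have hN0 : 0 < N := by
    have h1 : (0:ℝ) < N := lt_trans (by positivity) hN
    exact_mod_cast h1
  have hNr : (0:ℝ) < N := by exact_mod_cast hN0
  have hNδ : 1 / (N : ℝ) < δ := by
    rw [div_lt_iff₀ hNr]
    rw [div_lt_iff₀ hδ] at hN
    linarith
  have key : ∀ k : ℕ, k ≤ N →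
      γ.extend ((k : ℝ) / N) ∈ SS (Metric.ball y₁ ρ) (Metric.ball y₂ ρ) {a} k := by
    intro k
    induction k with
    | zero =>
      intro _
      show γ.extend (((0 : ℕ) : ℝ) / N) ∈ ({a} : Set M)
      rw [Nat.cast_zero, zero_div, Path.extend_zero]
      rfl
    | succ k ih =>
      intro hk
      have h1 := ih (by omega)
      have hkN : ((k : ℝ) + 1) / N ≤ 1 := by
        rw [div_le_one hNr]
        exact_mod_cast hk
      have hk0 : (0:ℝ) ≤ (k : ℝ) / N := by positivity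
      have hkk : (k : ℝ) / N ≤ ((k : ℝ) + 1) / N := by
        rw [div_le_div_iff_of_pos_right hNr]
        linarith
      have hsub : Icc ((k : ℝ) / N) (((k : ℝ) + 1) / N) ⊆ Icc (0:ℝ) 1 :=
        Icc_subset_Icc hk0 hkN
      set C : Set M := γ.extend '' Icc ((k : ℝ) / N) (((k : ℝ) + 1) / N) with hC
      have hCc : Cont C := ⟨isCompact_Icc.image hγc, isPreconnected_Icc.image _ hγc.continuousOn⟩
      have hCx : γ.extend (((k + 1 : ℕ) : ℝ) / N) ∈ C := by
        refine ⟨((k : ℝ) + 1) / N, ⟨hkk, le_rfl⟩, ?_⟩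
        push_cast
        rfl
      have hCk : (C ∩ SS (Metric.ball y₁ ρ) (Metric.ball y₂ ρ) {a} k).Nonempty :=
        ⟨_, ⟨(k : ℝ) / N, ⟨le_rfl, hkk⟩, rfl⟩, h1⟩
      have hor : Disjoint C (Metric.ball y₁ ρ) ∨ Disjoint C (Metric.ball y₂ ρ) := by
        by_contra hcon
        push Not at hcon
        obtain ⟨h2, h3⟩ := hcon
        rw [Set.not_disjoint_iff] at h2 h3
        obtain ⟨u, ⟨s, hs, hsu⟩, hu⟩ := h2
        obtain ⟨w, ⟨t, ht, htw⟩, hw⟩ := h3
        have hst : dist s t < δ := by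
          rw [Real.dist_eq]
          refine lt_of_le_of_lt ?_ hNδ
          have h4 : ((k : ℝ) + 1) / N = (k : ℝ) / N + 1 / N := by ring
          rw [abs_le]
          constructor
          · linarith [hs.1, ht.2]
          · linarith [hs.2, ht.1]
        have h4 := hδ' s (hsub hs) t (hsub ht) hst
        rw [hsu, htw] at h4
        rw [Metric.mem_ball] at hu hw
        have h5 : dist y₁ y₂ ≤ dist y₁ u + dist u w + dist w y₂ := dist_triangle4 _ _ _ _
        rw [dist_comm y₁ u] at h5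
        linarith
      rcases hor with h2 | h2
      · exact Or.inr (Or.inl ⟨C, hCc, hCx, hCk, h2⟩)
      · exact Or.inr (Or.inr ⟨C, hCc, hCx, hCk, h2⟩)
  refine ⟨N, ?_⟩
  have h1 := key N le_rfl
  rw [div_self hNr.ne', Path.extend_one] at h1
  exact h1

end Pool.FA57
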