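import Pool.Agent.Work.MP_36677d_fa.FA2

/-! # The core argument for a minimal invariant continuum (helper57) -/

set_option autoImplicit false

open Set Filter Topology

namespace Pool.FA57

open Pool.TL94 Pool.RY

variable {M : Type} [MetricSpace M] {p : M} {z : ℕ → M}

/-- iterated images -/
def EI (H : M → ℝ → M) (L : Set M) : ℕ → Set M
  | 0 => L
  | n + 1 => (fun q : M × ℝ => H q.1 q.2) '' (EI H L n ×ˢ Icc (0:ℝ) 1)

theorem EI_cont {H : M → ℝ → M} (cH : Continuous (fun q : M × ℝ => H q.1 q.2)) {L : Set M}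
    (hL : Cont L) (n : ℕ) : Cont (EI H L n) := by
  induction n with
  | zero => exact hL
  | succ n ih =>
    exact ⟨(ih.cpt.prod isCompact_Icc).image cH,
      (ih.con.prod isPreconnected_Icc).image _ cH.continuousOn⟩

theorem EI_succ {H : M → ℝ → M} {L : Set M} (h : ∀ y ∈ L, ∃ x ∈ L, ∃ t ∈ Icc (0:ℝ) 1, H x t = y)
    (n : ℕ) : EI H L n ⊆ EI H L (n + 1) := by
  induction n with
  | zero =>
    intro y hy
    obtain ⟨x, hx, t, ht, hxt⟩ := h y hy
    exact ⟨(x, t), ⟨hx, ht⟩, hxt⟩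
  | succ n ih => exact image_mono (prod_mono_left ih)

theorem EI_base {H : M → ℝ → M} {L : Set M} (h : ∀ y ∈ L, ∃ x ∈ L, ∃ t ∈ Icc (0:ℝ) 1, H x t = y)
    (n : ℕ) : L ⊆ EI H L n := by
  induction n with
  | zero => exact Subset.rfl
  | succ n ih => exact ih.trans (EI_succ h n)

/-- the iterated images of the limit set meet only the path components which meet the limit set -/
theorem EI_comp {H : M → ℝ → M} (cH : Continuous (fun q : M × ℝ => H q.1 q.2)) {L : Set M}
    (h : ∀ y ∈ L, ∃ x ∈ L, ∃ t ∈ Icc (0:ℝ) 1, H x t = y)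
    (hfin : (ZerothHomotopy.mk '' L).Finite) (n : ℕ) :
    ∀ x ∈ EI H L n, ZerothHomotopy.mk x ∈ ZerothHomotopy.mk '' L := by
  have hHt : ∀ x : M, ∀ t ∈ Icc (0:ℝ) 1, Joined (H x 0) (H x t) := by
    intro x t ht
    have hc : Continuous (fun t => H x t) := cH.comp (continuous_const.prodMk continuous_id)
    exact RDD_joined_img (convex_Icc (0 : ℝ) 1) (f := fun t => H x t) hc.continuousOn
      ⟨le_rfl, zero_le_one⟩ ht
  have hc0 : Continuous (fun x => H x 0) := cH.comp (continuous_id.prodMk continuous_const)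
  obtain ⟨σ, hσ⟩ : ∃ σ : ZerothHomotopy M → ZerothHomotopy M,
      ∀ x, ∀ t ∈ Icc (0:ℝ) 1, ZerothHomotopy.mk (H x t) = σ (ZerothHomotopy.mk x) := by
    refine ⟨Quotient.map (fun x => H x 0) (fun x y hxy => Joined.map hxy hc0), ?_⟩
    intro x t ht
    exact (Quotient.sound (hHt x t ht)).symm
  have h1 : ZerothHomotopy.mk '' L ⊆ σ '' (ZerothHomotopy.mk '' L) := by
    rintro _ ⟨y, hy, rfl⟩
    obtain ⟨x, hx, t, ht, hxt⟩ := h y hy
    exact ⟨_, ⟨x, hx, rfl⟩, by rw [← hσ x t ht, hxt]⟩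
  have h2 : ZerothHomotopy.mk '' L = σ '' (ZerothHomotopy.mk '' L) :=
    eq_of_subset_of_ncard_le h1 (ncard_image_le hfin) (hfin.image σ)
  induction n with
  | zero => exact fun x hx => ⟨x, hx, rfl⟩
  | succ n ih =>
    rintro _ ⟨⟨y, t⟩, ⟨hy, ht⟩, rfl⟩
    rw [h2]
    exact ⟨_, ih y hy, (hσ y t ht).symm⟩

/-- a path connected component is invariant -/
theorem joined_H {H : M → ℝ → M} (cH : Continuous (fun q : M × ℝ => H q.1 q.2))
    (hp : Joined p (H p 0)) : ∀ x, Joined p x → ∀ t ∈ Icc (0:ℝ) 1, Joined p (H x t) := by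
  intro x hx t ht
  have hc : Continuous (fun t => H x t) := cH.comp (continuous_const.prodMk continuous_id)
  have hc0 : Continuous (fun x => H x 0) := cH.comp (continuous_id.prodMk continuous_const)
  exact (hp.trans (hx.map hc0)).trans (RDD_joined_img (convex_Icc (0 : ℝ) 1)
    (f := fun t => H x t) hc.continuousOn ⟨le_rfl, zero_le_one⟩ ht)

/-- the core of the argument -/
theorem core [CompactSpace M] (hHU : HU M) {H : M → ℝ → M} {v : M → ℝ → ℝ} {e δ : ℝ} {N : ℕ}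
    (D : Dat H v e δ N)
    (hmin : ∀ C : Set M, Cont C → C.Nonempty → (∀ x ∈ C, ∀ t ∈ Icc (0:ℝ) 1, H x t ∈ C) →
      C = univ)
    (p : M) (hp : Joined p (H p 0)) (a : ℕ → M) (ha : ∀ x, ∃ n, Joined (a n) x)
    (hray : ∀ r : ℝ → M, ContinuousOn r (Ici 0) → InjOn r (Ici 0) →
      (ZerothHomotopy.mk '' ⋂ n : ℕ, closure (r '' Ici (n : ℝ))).Finite) : False := by
  have cH := D.cH
  have hPH := joined_H cH hp
  obtain ⟨z', hz1, hz2, hz3, hz4⟩ := p_RAYQ M H v e δ N D hHU p hPH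
  obtain ⟨r, hr⟩ := p_RPAR M H v e N hHU p z' hz1 hz2 hz3 hz4
  have hsq := ray_sq hHU hr
  have hdis : ∀ q ∈ Lm (fun n : ℕ => r n), ¬ Joined p q := fun q hq h =>
    hsq.disj hHU a ha hq h
  obtain ⟨y₁, hy₁, y₂, hy₂, hy⟩ := ray_two hHU hr hdis
  have hpar : ∀ n : ℕ, ∃ t ∈ Icc (0:ℝ) 1, r n ∈ seg p (H (r n) t) := by
    intro n
    obtain ⟨t, ht, hb, -⟩ := (p_FLB M H v e δ N D (r n)).2.2.2
      (fun t => H (r n) t ∈ Bey p (r n)) (hr.par1 n (Nat.cast_nonneg n))
    exact ⟨t, ht, hb⟩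
  have hLH : ∀ y ∈ Lm (fun n : ℕ => r n), ∃ x ∈ Lm (fun n : ℕ => r n),
      ∃ t ∈ Icc (0:ℝ) 1, H x t = y := fun y hy => hsq.sub_image hHU cH hPH hpar hy
  have hLc := hsq.lm_cont hHU
  have hfin : (ZerothHomotopy.mk '' Lm (fun n : ℕ => r n)).Finite := by
    refine (hray r hr.cont hr.inj).subset (image_mono ?_)
    exact iInter_mono fun n => ray_tl hr.cont n
  set L : Set M := Lm (fun n : ℕ => r n) with hL
  have hEP : ∀ n, ∀ x ∈ EI H L n, ¬ Joined p x := by
    intro n x hx hpx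
    obtain ⟨y, hyL, hyx⟩ := EI_comp cH hLH hfin n x hx
    exact hdis y hyL (hpx.trans (Quotient.exact hyx).symm)
  -- the iterated images are dense
  have hEd : closure (⋃ n, EI H L n) = univ := by
    refine hmin _ ⟨isClosed_closure.isCompact, ?_⟩ ?_ ?_
    · refine IsPreconnected.closure (isPreconnected_iUnion ⟨y₁, mem_iInter.2 fun n => ?_⟩
        fun n => (EI_cont cH hLc n).con)
      exact EI_base hLH n hy₁
    · exact ⟨y₁, subset_closure (mem_iUnion.2 ⟨0, hy₁⟩)⟩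
    · intro x hx t ht
      have hct : Continuous (fun x => H x t) := cH.comp (continuous_id.prodMk continuous_const)
      refine map_mem_closure (f := fun x => H x t) hct hx ?_
      intro y hy
      obtain ⟨n, hn⟩ := mem_iUnion.1 hy
      exact mem_iUnion.2 ⟨n + 1, (y, t), ⟨hn, ht⟩, rfl⟩
  -- the path component of `p` is dense
  have hPd : closure (pathComponent p) = univ := by
    refine hmin _ ⟨isClosed_closure.isCompact, ?_⟩ ?_ ?_
    · exact isPathConnected_pathComponent.isConnected.isPreconnected.closure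
    · exact ⟨p, subset_closure (mem_pathComponent_self p)⟩
    · intro x hx t ht
      have hct : Continuous (fun x => H x t) := cH.comp (continuous_id.prodMk continuous_const)
      exact map_mem_closure (f := fun x => H x t) hct hx fun y hy => hPH y hy t ht
  -- Baire category
  have hρ0 : 0 < dist y₁ y₂ / 3 := by
    have := dist_pos.2 hy
    positivity
  have : Nonempty M := ⟨p⟩
  obtain ⟨⟨i, n⟩, w, hw⟩ := nonempty_interior_of_iUnion_of_closed
    (f := fun i : ℕ × ℕ => SS (Metric.ball y₁ (dist y₁ y₂ / 3)) (Metric.ball y₂ (dist y₁ y₂ / 3))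
      {a i.1} i.2)
    (fun i => isClosed_SS Metric.isOpen_ball Metric.isOpen_ball isClosed_singleton _) (by
      ext x
      simp only [mem_iUnion, mem_univ, iff_true]
      obtain ⟨j, hj⟩ := ha x
      obtain ⟨n, hn⟩ := ss_joined hy hj
      exact ⟨(j, n), hn⟩)
  have hev : ∀ y ∈ L, ∀ C, Cont C → Disjoint C (Metric.ball y (dist y₁ y₂ / 3)) →
      Ev (fun n : ℕ => r n) C := by
    intro y hyL C hC hd
    refine hsq.ev hHU hC fun hLC => ?_
    exact Set.disjoint_left.1 hd (hLC hyL) (Metric.mem_ball_self hρ0)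
  have hgood := ss_good (z := fun n : ℕ => r n) (a := a i) (hev y₁ hy₁) (hev y₂ hy₂) (by
    refine hsq.ev hHU (cont_singleton _) fun hLC => hy ?_
    exact (hLC hy₁).trans (hLC hy₂).symm) n
  -- the two points
  have hwE : w ∈ closure (⋃ n, EI H L n) := by rw [hEd]; trivial
  have hwP : w ∈ closure (pathComponent p) := by rw [hPd]; trivial
  obtain ⟨e', he', heE⟩ := mem_closure_iff.1 hwE _ isOpen_interior hw
  obtain ⟨x, hx, hxP⟩ := mem_closure_iff.1 hwP _ isOpen_interior hw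
  obtain ⟨m, hm⟩ := mem_iUnion.1 heE
  obtain ⟨Q₁, hQ₁, ha₁, hx₁, hev₁⟩ := hgood x (interior_subset hx)
  obtain ⟨Q₂, hQ₂, ha₂, he₂, hev₂⟩ := hgood e' (interior_subset he')
  have hQ : Cont (Q₁ ∪ Q₂) := hQ₁.union hQ₂ ⟨_, ha₁, ha₂⟩
  obtain ⟨l₀, hl₀⟩ := hev₁.union hev₂
  have hQE : Cont ((Q₁ ∪ Q₂) ∪ EI H L m) := hQ.union (EI_cont cH hLc m) ⟨e', Or.inr he₂, hm⟩
  obtain ⟨l₁, hl₁⟩ := hsq.irr hHU hdis hQE (Or.inl (Or.inl hx₁)) hxP
    ⟨y₁, Or.inr (EI_base hLH m hy₁), hy₁⟩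
  rcases hl₁ (max l₀ l₁) (le_max_right _ _) with h | h
  · exact hl₀ _ (le_max_left _ _) h
  · exact hEP m _ h (hsq.j _)

end Pool.FA57
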