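import Pool.Agent.Work.MP_36677d_fa.FA3

/-! # Passing to a minimal invariant continuum; the theorem (helper57) -/

set_option autoImplicit false

open Set Filter Topology

namespace Pool.FA57

open Pool.TL94 Pool.RY

variable {M : Type} [MetricSpace M]

theorem hu_sub (hHU : HU M) (K : Set M) : HU K := by
  intro A B hA hA' hB hB'
  have h1 := hHU (Subtype.val '' A) (Subtype.val '' B) (hA.image continuous_subtype_val)
    (hA'.image _ continuous_subtype_val.continuousOn) (hB.image continuous_subtype_val)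
    (hB'.image _ continuous_subtype_val.continuousOn)
  rw [← image_inter Subtype.val_injective] at h1
  exact Topology.IsInducing.subtypeVal.isPreconnected_image.1 h1

theorem joined_sub [CompactSpace M] (hHU : HU M) {K : Set M} (hK : Cont K) {x y : K}
    (h : Joined (x : M) (y : M)) : Joined x y := by
  by_cases hxy : (x : M) = y
  · rw [Subtype.ext hxy]
  · obtain ⟨γ, hγ⟩ := exists_arcFn h hxy
    have h1 : JoinedIn K (x : M) (y : M) := by
      refine ⟨Path.ofLine (f := γ) hγ.cont hγ.zero hγ.one, fun t => ?_⟩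
      obtain ⟨s, hs, hst⟩ := Path.ofLine_mem (f := γ) hγ.cont hγ.zero hγ.one t
      rw [← hst]
      exact seg_sub hK x.2 y.2 (hγ.mem_seg hHU hs.1 hs.2)
    exact h1.joined_subtype

/-- invariant continua -/
def Inv (G : C(M × unitInterval, M × unitInterval)) (K : Set M) : Prop :=
  IsClosed K ∧ IsPreconnected K ∧ K.Nonempty ∧ ∀ x ∈ K, ∀ t, (G (x, t)).1 ∈ K

theorem exists_min [CompactSpace M] [ConnectedSpace M]
    (G : C(M × unitInterval, M × unitInterval)) : ∃ K, Minimal (Inv G) K := by
  refine zorn_superset {K | Inv G K} fun c hc hch => ?_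
  rcases c.eq_empty_or_nonempty with h | h
  · refine ⟨univ, ⟨isClosed_univ, isPreconnected_univ, univ_nonempty, fun _ _ _ => trivial⟩, ?_⟩
    rw [h]
    exact fun s hs => absurd hs (notMem_empty s)
  · have : Nonempty c := h.to_subtype
    have hdir : Directed (fun a b : Set M => b ⊆ a) (fun K : c => (K : Set M)) := by
      rintro ⟨A, hA⟩ ⟨B, hB⟩
      rcases hch.total hA hB with h1 | h1
      · exact ⟨⟨A, hA⟩, Subset.rfl, h1⟩
      · exact ⟨⟨B, hB⟩, h1, Subset.rfl⟩
    refine ⟨⋂ K : c, (K : Set M), ⟨?_, ?_, ?_, ?_⟩, fun s hs => iInter_subset _ (⟨s, hs⟩ : c)⟩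
    · exact isClosed_iInter fun K => (hc K.2).1
    · exact conn_dir _ hdir (fun K => (hc K.2).1.isCompact) fun K => (hc K.2).2.1
    · exact IsCompact.nonempty_iInter_of_directed_nonempty_isCompact_isClosed _ hdir
        (fun K => (hc K.2).2.2.1) (fun K => (hc K.2).1.isCompact) fun K => (hc K.2).1
    · intro x hx t
      rw [mem_iInter] at hx ⊢
      exact fun K => (hc K.2).2.2.2 x (hx K) t

theorem main [CompactSpace M] [ConnectedSpace M] (hT : TreeLike M)
    (hmaps : ∀ K : Set M, IsClosed K → IsConnected K → ∀ f : C(K, K), ∃ x, Joined x (f x))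
    (hcount : Countable (ZerothHomotopy M))
    (hray : ∀ r : ℝ → M, ContinuousOn r (Ici 0) → InjOn r (Ici 0) →
      (ZerothHomotopy.mk '' ⋂ n : ℕ, closure (r '' Ici (n : ℝ))).Finite)
    (G : C(M × unitInterval, M × unitInterval)) : ∃ q, G q = q := by
  classical
  by_contra hG
  push Not at hG
  have hHU := hT.hu
  obtain ⟨K, ⟨hKc, hKp, hKn, hKi⟩, hKmin⟩ := exists_min G
  have hK : Cont K := ⟨hKc.isCompact, hKp⟩
  have hcs : CompactSpace K := isCompact_iff_compactSpace.1 hKc.isCompact
  have hne : Nonempty K := hKn.to_subtype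
  let G' : C(K × unitInterval, K × unitInterval) :=
    ⟨fun q => (⟨(G (q.1.1, q.2)).1, hKi _ q.1.2 q.2⟩, (G (q.1.1, q.2)).2), by
      refine Continuous.prodMk (Continuous.subtype_mk ?_ _) ?_
      · fun_prop
      · fun_prop⟩
  have hG' : ∀ q, G' q ≠ q := by
    rintro ⟨x, t⟩ h
    apply hG (x.1, t)
    have h1 : (G' (x, t)).1.1 = x.1 := by rw [h]
    have h2 : (G' (x, t)).2 = t := by rw [h]
    exact Prod.ext h1 h2
  obtain ⟨v, e, δ, N, D⟩ := exists_dat G' hG'
  obtain ⟨p, hp⟩ := hmaps K hKc ⟨hKn, hKp⟩ ⟨fun x => (G' (x, 0)).1, by fun_prop⟩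
  -- representatives of the path components
  obtain ⟨c, hc⟩ : ∃ c : ℕ → ZerothHomotopy M, Function.Surjective c := by
    have : Nonempty (ZerothHomotopy M) := inferInstance
    exact exists_surjective_nat _
  obtain ⟨a, ha⟩ : ∃ a : ℕ → K, ∀ x, ∃ n, Joined (a n) x := by
    refine ⟨fun n => if h : ∃ x : K, ZerothHomotopy.mk (x : M) = c n then h.choose else p, ?_⟩
    intro x
    obtain ⟨n, hn⟩ := hc (ZerothHomotopy.mk (x : M))
    have h : ∃ x : K, ZerothHomotopy.mk (x : M) = c n := ⟨x, hn.symm⟩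
    refine ⟨n, ?_⟩
    simp only [dif_pos h]
    refine joined_sub hHU hK ?_
    exact Quotient.exact (h.choose_spec.trans hn)
  refine core (hu_sub hHU K) D ?_ p ?_ a ha ?_
  · intro C hC hCn hCi
    have h1 : Inv G (Subtype.val '' C) := by
      refine ⟨(hC.cpt.image continuous_subtype_val).isClosed,
        hC.con.image _ continuous_subtype_val.continuousOn, hCn.image _, ?_⟩
      rintro _ ⟨x, hx, rfl⟩ t
      have h2 := hCi x hx t.1 t.2
      simp only [projIcc_val] at h2
      exact ⟨_, h2, rfl⟩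
    have h2 : K ⊆ Subtype.val '' C := hKmin h1 (by
      rintro _ ⟨x, -, rfl⟩
      exact x.2)
    ext x
    simp only [mem_univ, iff_true]
    obtain ⟨y, hy, hyx⟩ := h2 x.2
    rwa [← Subtype.ext hyx]
  · have h1 : (projIcc (0:ℝ) 1 zero_le_one 0 : unitInterval) = 0 := projIcc_left _
    simp only [h1]
    exact hp
  · intro r hr hri
    obtain ⟨τ, hτ⟩ : ∃ τ : ZerothHomotopy K → ZerothHomotopy M,
        ∀ x : K, τ (ZerothHomotopy.mk x) = ZerothHomotopy.mk (x : M) :=
      ⟨Quotient.map Subtype.val (fun x y hxy => Joined.map hxy continuous_subtype_val),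
        fun _ => rfl⟩
    have hinj : Function.Injective τ := by
      intro x y hxy
      obtain ⟨x, rfl⟩ := ZerothHomotopy.mk_surjective x
      obtain ⟨y, rfl⟩ := ZerothHomotopy.mk_surjective y
      rw [hτ, hτ] at hxy
      exact Quotient.sound (joined_sub hHU hK (Quotient.exact hxy))
    refine Set.Finite.of_finite_image (f := τ) ?_ hinj.injOn
    have h1 := hray (fun s => (r s : M)) (continuous_subtype_val.comp_continuousOn hr)
      (fun s hs t ht hst => hri hs ht (Subtype.ext hst))
    refine h1.subset ?_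
    rintro _ ⟨_, ⟨x, hx, rfl⟩, rfl⟩
    rw [hτ]
    refine ⟨x, ?_, rfl⟩
    rw [mem_iInter] at hx ⊢
    intro n
    have h2 := image_closure_subset_closure_image continuous_subtype_val
      (mem_image_of_mem Subtype.val (hx n))
    rwa [image_image] at h2

end Pool.FA57
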