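import Pool.Agent.Work.MP_36677d_fa.FA3

/-! # Rays whose side branches become negligible (helper57) -/

set_option autoImplicit false

open Set Filter Topology

namespace Pool.FA57

open Pool.TL94 Pool.RY

variable {M : Type} [MetricSpace M] {p : M} {z : ℕ → M}

/-- the limit of a convergent ray is joined with its beginning -/
theorem lim_joined {r : ℝ → M} (hr : ContinuousOn r (Ici 0)) (h0 : r 0 = p) {y : M}
    (hlim : Tendsto r atTop (𝓝 y)) : Joined p y := by
  have h1 : ContinuousOn (fun t : ℝ => r (t / (1 - t))) (Ioo 0 1) := by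
    refine hr.comp ?_ ?_
    · refine ContinuousOn.div continuousOn_id (by fun_prop) ?_
      intro t ht
      have := ht.2
      exact (sub_pos.2 this).ne'
    · intro t ht
      exact div_nonneg ht.1.le (sub_nonneg.2 ht.2.le)
  have h2 : Tendsto (fun t : ℝ => r (t / (1 - t))) (𝓝[>] 0) (𝓝 p) := by
    have h3 : Tendsto (fun t : ℝ => t / (1 - t)) (𝓝[>] 0) (𝓝[Ici 0] 0) := by
      refine tendsto_nhdsWithin_iff.2 ⟨?_, ?_⟩
      · have h4 : ContinuousAt (fun t : ℝ => t / (1 - t)) 0 := by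
          refine ContinuousAt.div continuousAt_id (by fun_prop) (by norm_num)
        have h5 := h4.tendsto
        simp only [sub_zero, div_one] at h5
        exact h5.mono_left nhdsWithin_le_nhds
      · filter_upwards [Ioo_mem_nhdsGT (show (0:ℝ) < 1 by norm_num)] with t ht
        exact div_nonneg ht.1.le (sub_nonneg.2 ht.2.le)
    have h6 := (hr 0 (mem_Ici.2 le_rfl)).tendsto.comp h3
    rw [h0] at h6
    exact h6
  have h3 : Tendsto (fun t : ℝ => r (t / (1 - t))) (𝓝[<] 1) (𝓝 y) := by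
    refine hlim.comp ?_
    have h4 : Tendsto (fun t : ℝ => t) (𝓝[<] 1) (𝓝 1) := nhdsWithin_le_nhds
    have h5 : Tendsto (fun t : ℝ => (1 - t)⁻¹) (𝓝[<] 1) atTop := by
      refine tendsto_inv_nhdsGT_zero.comp (tendsto_nhdsWithin_iff.2 ⟨?_, ?_⟩)
      · have h6 : ContinuousAt (fun t : ℝ => 1 - t) 1 := by fun_prop
        have h7 := h6.tendsto
        simp only [sub_self] at h7
        exact h7.mono_left nhdsWithin_le_nhds
      · filter_upwards [self_mem_nhdsWithin] with t ht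
        exact sub_pos.2 (mem_Iio.1 ht)
    have h6 := h4.pos_mul_atTop one_pos h5
    refine h6.congr fun t => ?_
    rw [div_eq_mul_inv]
  have h4 := continuousOn_Icc_extendFrom_Ioo h1 h2 h3
  refine ⟨Path.ofLine h4 ?_ ?_⟩
  · exact eq_lim_at_left_extendFrom_Ioo zero_lt_one h2
  · exact eq_lim_at_right_extendFrom_Ioo zero_lt_one h3

/-- a sequence whose limit set meets the path component of `p` runs in its limit set -/
theorem Sq.late_mem [CompactSpace M] (hHU : HU M) (h : Sq p z) {q : M}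
    (hq : q ∈ Lm z) (hpq : Joined p q) : ∃ N, ∀ n m, N ≤ n → z n ∈ Tl z m := by
  rw [Lm, mem_iInter] at hq
  obtain ⟨N, hNn⟩ := h.late hpq
  refine ⟨N, fun n m hn => ?_⟩
  have h1 : ∀ m, n ≤ m → z n ∈ Tl z m := by
    intro m hm
    rcases h.mono hm (Tl z m ∪ seg p q) ((h.ct hHU m).union (cont_seg hHU hpq)
      ⟨q, hq m, right_mem _ _⟩) (Or.inr (left_mem _ _)) (Or.inl (mem_tl le_rfl)) with h | h
    · exact h
    · exact absurd h (hNn n hn)
  rcases le_total n m with h2 | h2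
  · exact h1 m h2
  · exact h.anti hHU h2 (h1 n le_rfl)

/-- the ray of the proof does not converge -/
theorem ray_not_lim [CompactSpace M] (hHU : HU M) {H : M → ℝ → M} {v : M → ℝ → ℝ} {e : ℝ}
    {N : ℕ} {r : ℝ → M} (hr : Ray H v e N p r) {y : M} (hlim : Tendsto r atTop (𝓝 y)) :
    False := by
  have hsq := ray_sq hHU hr
  have hpy := lim_joined hr.cont hr.zero hlim
  have hlim' : Tendsto (fun n : ℕ => r n) atTop (𝓝 y) := hlim.comp tendsto_natCast_atTop_atTop
  have hyL : y ∈ Lm (fun n : ℕ => r n) := by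
    rw [Lm, mem_iInter]
    intro n
    refine mem_closure_of_tendsto hlim' ?_
    filter_upwards [eventually_ge_atTop n] with m hm
    exact mem_iUnion.2 ⟨⟨m, hm⟩, right_mem _ _⟩
  obtain ⟨N', hN'⟩ := hsq.late_mem hHU hyL hpy
  -- a point of the limit set of a convergent ray is the limit
  have key : ∀ x, (∀ m, x ∈ Tl (fun n : ℕ => r n) m) → x = y := by
    intro x hx
    by_contra hne
    have hd : 0 < dist x y / 2 := by
      have := dist_pos.2 hne
      positivity
    obtain ⟨s₁, hs₁⟩ := eventually_atTop.1 (hlim (Metric.ball_mem_nhds y hd))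
    obtain ⟨m, hm⟩ := exists_nat_ge s₁
    have h1 := ray_tl hr.cont m (hx m)
    have h2 : closure (r '' Ici (m : ℝ)) ⊆ Metric.closedBall y (dist x y / 2) := by
      refine closure_minimal ?_ Metric.isClosed_closedBall
      rintro _ ⟨s, hs, rfl⟩
      exact Metric.ball_subset_closedBall (hs₁ s (hm.trans hs))
    have h3 := h2 h1
    rw [Metric.mem_closedBall] at h3
    linarith
  have h1 := key _ fun m => hN' N' m le_rfl
  have h2 := key _ fun m => hN' (N' + 1) m (Nat.le_succ _)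
  have h3 := hr.inj (mem_Ici.2 (Nat.cast_nonneg N')) (mem_Ici.2 (Nat.cast_nonneg (N' + 1)))
    (h1.trans h2.symm)
  have h4 : N' = N' + 1 := by exact_mod_cast h3
  omega

/-- the limit set of a ray whose side branches become negligible is invariant -/
theorem ray_inv [CompactSpace M] (hHU : HU M) {H : M → ℝ → M} {v : M → ℝ → ℝ} {e : ℝ} {N : ℕ}
    {r : ℝ → M} (hr : Ray H v e N p r) (cH : Continuous (fun q : M × ℝ => H q.1 q.2))
    (hPH : ∀ x, Joined p x → ∀ t ∈ Icc (0:ℝ) 1, Joined p (H x t))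
    (hpar : ∀ s : ℝ, 0 ≤ s → ∃ t ∈ Icc (0:ℝ) 1, r s ∈ seg p (H (r s) t))
    (hdis : ∀ q ∈ Lm (fun n : ℕ => r n), ¬ Joined p q)
    (hthin : ∀ ε : ℝ, 0 < ε → ∀ s₁ : ℝ, ∃ s₀ : ℝ, 0 ≤ s₀ ∧ s₁ ≤ s₀ ∧ ∀ u, Joined p u →
      r s₀ ∈ seg p u → ∃ s, s₀ ≤ s ∧ dist u (r s) < ε) :
    ∀ y ∈ Lm (fun n : ℕ => r n), ∀ t ∈ Icc (0:ℝ) 1, H y t ∈ Lm (fun n : ℕ => r n) := by
  intro y hy t ht
  by_contra hcon
  have hsq := ray_sq hHU hr
  have hL := hcon
  rw [Lm, mem_iInter] at hL
  push Not at hL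
  obtain ⟨m', hm'⟩ := hL
  obtain ⟨ε, hε, hεd⟩ := Metric.isOpen_iff.1
    (isClosed_closure : IsClosed (Tl (fun n : ℕ => r n) m')).isOpen_compl _ hm'
  obtain ⟨s₀, hs₀, hs₁, hs₂⟩ := hthin (ε / 2) (half_pos hε) m'
  obtain ⟨m, hm⟩ := exists_nat_ge s₀
  have hΦc : ∀ x, Cont ((fun τ => H x τ) '' Icc (0:ℝ) 1) := by
    intro x
    have hc : Continuous (fun τ => H x τ) := cH.comp (continuous_const.prodMk continuous_id)
    exact ⟨isCompact_Icc.image hc, isPreconnected_Icc.image _ hc.continuousOn⟩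
  have hsub : Tl (fun n : ℕ => r n) m ⊆ (fun τ => H y τ) '' Icc (0:ℝ) 1 := by
    refine tl_sub (hΦc y) fun l hl => ?_
    by_contra hly
    have hO1 : IsOpen {x : M | H x t ∈ Metric.ball (H y t) (ε / 2)} := by
      have hct : Continuous (fun x => H x t) := cH.comp (continuous_id.prodMk continuous_const)
      exact Metric.isOpen_ball.preimage hct
    have hO2 : IsOpen {x : M | r l ∉ (fun τ => H x τ) '' Icc (0:ℝ) 1} := by
      have h1 : {x : M | r l ∉ (fun τ => H x τ) '' Icc (0:ℝ) 1} =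
          (Prod.fst '' (((univ : Set M) ×ˢ Icc (0:ℝ) 1) ∩ {q : M × ℝ | H q.1 q.2 = r l}))ᶜ := by
        ext x
        simp only [mem_ofPred_eq, mem_compl_iff, not_iff_not]
        constructor
        · rintro ⟨τ, hτ, hx⟩
          exact ⟨(x, τ), ⟨⟨trivial, hτ⟩, hx⟩, rfl⟩
        · rintro ⟨⟨x', τ⟩, ⟨⟨-, hτ⟩, hx⟩, rfl⟩
          exact ⟨τ, hτ, hx⟩
      rw [h1]
      have h2 : IsClosed (Prod.fst '' (((univ : Set M) ×ˢ Icc (0:ℝ) 1) ∩
          {q : M × ℝ | H q.1 q.2 = r l})) :=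
        (((isCompact_univ.prod isCompact_Icc).inter_right
          (isClosed_eq cH continuous_const)).image continuous_fst).isClosed
      exact h2.isOpen_compl
    have hyc : y ∈ closure (r '' Ici (l : ℝ)) := ray_tl hr.cont l (lm_sub l hy)
    obtain ⟨_, ⟨hx1, hx2⟩, s, hs, rfl⟩ := mem_closure_iff.1 hyc _ (hO1.inter hO2)
      ⟨Metric.mem_ball_self (half_pos hε), hly⟩
    have hl0 : (0:ℝ) ≤ l := Nat.cast_nonneg l
    have hs0 : (0:ℝ) ≤ s := hl0.trans hs
    have hsl : s₀ ≤ (l : ℝ) := hm.trans (by exact_mod_cast hl)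
    have hjs := ray_joined hr hs0
    obtain ⟨τ, hτ, hpτ⟩ := hpar s hs0
    have hju := hPH _ hjs t ht
    have h2 : r l ∈ seg p (H (r s) τ) :=
      seg_trans ((KAP_mem hHU hr hl0 hs0).2 hs) hpτ
    rcases h2 _ ((cont_seg hHU hju).union (hΦc (r s)) ⟨H (r s) t, right_mem _ _, t, ht, rfl⟩)
      (Or.inl (left_mem _ _)) (Or.inr ⟨τ, hτ, rfl⟩) with h3 | h3
    · obtain ⟨s', hs', hd⟩ := hs₂ _ hju (seg_trans ((KAP_mem hHU hr hs₀ hl0).2 hsl) h3)
      have h4 : r s' ∈ Tl (fun n : ℕ => r n) m' := ray_mem_tl hHU hr (hs₁.trans hs')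
      refine hεd ?_ h4
      have h5 := Metric.mem_ball.1 hx1
      rw [Metric.mem_ball]
      calc dist (r s') (H y t) ≤ dist (r s') (H (r s) t) + dist (H (r s) t) (H y t) :=
            dist_triangle _ _ _
        _ < ε / 2 + ε / 2 := by
            rw [dist_comm (r s')]
            exact add_lt_add hd h5
        _ = ε := add_halves ε
    · exact hx2 h3
  have hj : ∀ a ∈ (fun τ => H y τ) '' Icc (0:ℝ) 1, ∀ b ∈ (fun τ => H y τ) '' Icc (0:ℝ) 1,
      Joined a b := by
    rintro _ ⟨a, ha, rfl⟩ _ ⟨b, hb, rfl⟩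
    have hc : Continuous (fun τ => H y τ) := cH.comp (continuous_const.prodMk continuous_id)
    exact RDD_joined_img (convex_Icc (0 : ℝ) 1) (f := fun τ => H y τ) hc.continuousOn ha hb
  have h1 := hj (r m) (hsub (mem_tl le_rfl)) y (hsub (lm_sub m hy))
  exact hdis y hy ((ray_joined hr (Nat.cast_nonneg m)).trans h1)

end Pool.FA57
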