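import Pool.Agent.Work.MP_36677d_fa.FA5

/-! # The core argument with alternatives for each ray (helper57) -/

set_option autoImplicit false

open Set Filter Topology

namespace Pool.FA57

open Pool.TL94 Pool.RY

variable {M : Type} [MetricSpace M] {p : M} {z : ℕ → M}

/-- segments in a subcontinuum -/
theorem seg_val [CompactSpace M] (hHU : HU M) {K : Set M} (hK : Cont K) {a b x : K}
    (h : x ∈ seg a b) : (x : M) ∈ seg (a : M) (b : M) := by
  intro C hC ha hb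
  refine h (Subtype.val ⁻¹' C) ⟨?_, ?_⟩ ha hb
  · have : CompactSpace K := isCompact_iff_compactSpace.1 hK.cpt
    exact (hC.cpt.isClosed.preimage continuous_subtype_val).isCompact
  · refine Topology.IsInducing.subtypeVal.isPreconnected_image.1 ?_
    rw [Subtype.image_preimage_coe]
    exact hHU K C hK.cpt hK.con hC.cpt hC.con

/-- a path from `a` to `b` meets every point of the segment -/
theorem seg_not_joinedIn {a b x : M} (h : x ∈ seg a b) : ¬ JoinedIn {x}ᶜ a b := by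
  rintro ⟨γ, hγ⟩
  obtain ⟨t, ht⟩ := h (range γ)
    ⟨isCompact_range γ.continuous, isPreconnected_range γ.continuous⟩ ⟨0, γ.source⟩ ⟨1, γ.target⟩
  exact hγ t ht

/-- the core of the argument, second version: an alternative for each ray -/
theorem core2 [CompactSpace M] (hHU : HU M) {H : M → ℝ → M} {v : M → ℝ → ℝ} {e δ : ℝ} {N : ℕ}
    (D : Dat H v e δ N)
    (hmin : ∀ C : Set M, Cont C → C.Nonempty → (∀ x ∈ C, ∀ t ∈ Icc (0:ℝ) 1, H x t ∈ C) →
      C = univ)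
    (p : M) (hp : Joined p (H p 0))
    (hray : ∀ r : ℝ → M, ContinuousOn r (Ici 0) → InjOn r (Ici 0) →
      (∃ y, Tendsto r atTop (𝓝 y)) ∨
      ((∃ s₂ : ℝ, ∀ s, s₂ ≤ s → r s ∉ ⋂ n : ℕ, closure (r '' Ici (n : ℝ))) ∧
        ∀ ε : ℝ, 0 < ε → ∀ s₁ : ℝ, ∃ s₀ : ℝ, 0 ≤ s₀ ∧ s₁ ≤ s₀ ∧ ∀ u, Joined (r 0) u →
          r s₀ ∈ seg (r 0) u → ∃ s, s₀ ≤ s ∧ dist u (r s) < ε) ∨
      ((∃ a : ℕ → M, ∀ x, ∃ n, Joined (a n) x) ∧
        (ZerothHomotopy.mk '' ⋂ n : ℕ, closure (r '' Ici (n : ℝ))).Finite)) : False := by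
  have cH := D.cH
  have hPH := joined_H cH hp
  obtain ⟨z', hz1, hz2, hz3, hz4⟩ := p_RAYQ M H v e δ N D hHU p hPH
  obtain ⟨r, hr⟩ := p_RPAR M H v e N hHU p z' hz1 hz2 hz3 hz4
  have hsq := ray_sq hHU hr
  have hpar' : ∀ s : ℝ, 0 ≤ s → ∃ t ∈ Icc (0:ℝ) 1, r s ∈ seg p (H (r s) t) := by
    intro s hs
    obtain ⟨t, ht, hb, -⟩ := (p_FLB M H v e δ N D (r s)).2.2.2
      (fun t => H (r s) t ∈ Bey p (r s)) (hr.par1 s hs)
    exact ⟨t, ht, hb⟩
  have hLsub : Lm (fun n : ℕ => r n) ⊆ ⋂ n : ℕ, closure (r '' Ici (n : ℝ)) :=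
    iInter_mono fun n => ray_tl hr.cont n
  rcases hray r hr.cont hr.inj with ⟨y, hlim⟩ | ⟨⟨s₀, hs₀⟩, hthin⟩ | ⟨⟨a, ha⟩, hfin0⟩
  · exact ray_not_lim hHU hr hlim
  · -- the limit set is invariant
    have hdis : ∀ q ∈ Lm (fun n : ℕ => r n), ¬ Joined p q := by
      intro q hq hpq
      obtain ⟨N', hN'⟩ := hsq.late_mem hHU hq hpq
      obtain ⟨n, hn⟩ := exists_nat_ge s₀
      have hmax : s₀ ≤ ((max n N' : ℕ) : ℝ) := hn.trans (by exact_mod_cast le_max_left _ _)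
      refine hs₀ _ hmax (hLsub ?_)
      rw [Lm, mem_iInter]
      exact fun m => hN' _ m (le_max_right _ _)
    rw [hr.zero] at hthin
    have hinv := ray_inv hHU hr cH hPH hpar' hdis hthin
    have hL1 := hmin _ (hsq.lm_cont hHU) (hsq.lm_nonempty hHU) hinv
    exact hdis p (by rw [hL1]; trivial) (Joined.refl p)
  have hdis : ∀ q ∈ Lm (fun n : ℕ => r n), ¬ Joined p q := fun q hq h =>
    hsq.disj hHU a ha hq h
  obtain ⟨y₁, hy₁, y₂, hy₂, hy⟩ := ray_two hHU hr hdis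
  have hpar : ∀ n : ℕ, ∃ t ∈ Icc (0:ℝ) 1, r n ∈ seg p (H (r n) t) := fun n =>
    hpar' n (Nat.cast_nonneg n)
  have hLH : ∀ y ∈ Lm (fun n : ℕ => r n), ∃ x ∈ Lm (fun n : ℕ => r n),
      ∃ t ∈ Icc (0:ℝ) 1, H x t = y := fun y hy => hsq.sub_image hHU cH hPH hpar hy
  have hLc := hsq.lm_cont hHU
  have hfin : (ZerothHomotopy.mk '' Lm (fun n : ℕ => r n)).Finite :=
    hfin0.subset (image_mono hLsub)
  set L : Set M := Lm (fun n : ℕ => r n) with hL
  have hEP : ∀ n, ∀ x ∈ EI H L n, ¬ Joined p x := by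
    intro n x hx hpx
    obtain ⟨y, hyL, hyx⟩ := EI_comp cH hLH hfin n x hx
    exact hdis y hyL (hpx.trans (Quotient.exact hyx).symm)
  -- the iterated images are dense
  have hEd : closure (⋃ n, EI H L n) = univ := by
    refine hmin _ ⟨isClosed_closure.isCompact, ?_⟩ ?_ ?_
    · refine IsPreconnected.closure (isPreconnected_iUnion ⟨y₁, mem_iInter.2 fun n => ?_⟩
        fun n => (EI_cont cH hLc n).con)
      exact EI_base hLH n hy₁
    · exact ⟨y₁, subset_closure (mem_iUnion.2 ⟨0, hy₁⟩)⟩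
    · intro x hx t ht
      have hct : Continuous (fun x => H x t) := cH.comp (continuous_id.prodMk continuous_const)
      refine map_mem_closure (f := fun x => H x t) hct hx ?_
      intro y hy
      obtain ⟨n, hn⟩ := mem_iUnion.1 hy
      exact mem_iUnion.2 ⟨n + 1, (y, t), ⟨hn, ht⟩, rfl⟩
  -- the path component of `p` is dense
  have hPd : closure (pathComponent p) = univ := by
    refine hmin _ ⟨isClosed_closure.isCompact, ?_⟩ ?_ ?_
    · exact isPathConnected_pathComponent.isConnected.isPreconnected.closure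
    · exact ⟨p, subset_closure (mem_pathComponent_self p)⟩
    · intro x hx t ht
      have hct : Continuous (fun x => H x t) := cH.comp (continuous_id.prodMk continuous_const)
      exact map_mem_closure (f := fun x => H x t) hct hx fun y hy => hPH y hy t ht
  -- Baire category
  have hρ0 : 0 < dist y₁ y₂ / 3 := by
    have := dist_pos.2 hy
    positivity
  have : Nonempty M := ⟨p⟩
  obtain ⟨⟨i, n⟩, w, hw⟩ := nonempty_interior_of_iUnion_of_closed
    (f := fun i : ℕ × ℕ => SS (Metric.ball y₁ (dist y₁ y₂ / 3)) (Metric.ball y₂ (dist y₁ y₂ / 3))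
      {a i.1} i.2)
    (fun i => isClosed_SS Metric.isOpen_ball Metric.isOpen_ball isClosed_singleton _) (by
      ext x
      simp only [mem_iUnion, mem_univ, iff_true]
      obtain ⟨j, hj⟩ := ha x
      obtain ⟨n, hn⟩ := ss_joined hy hj
      exact ⟨(j, n), hn⟩)
  have hev : ∀ y ∈ L, ∀ C, Cont C → Disjoint C (Metric.ball y (dist y₁ y₂ / 3)) →
      Ev (fun n : ℕ => r n) C := by
    intro y hyL C hC hd
    refine hsq.ev hHU hC fun hLC => ?_
    exact Set.disjoint_left.1 hd (hLC hyL) (Metric.mem_ball_self hρ0)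
  have hgood := ss_good (z := fun n : ℕ => r n) (a := a i) (hev y₁ hy₁) (hev y₂ hy₂) (by
    refine hsq.ev hHU (cont_singleton _) fun hLC => hy ?_
    exact (hLC hy₁).trans (hLC hy₂).symm) n
  -- the two points
  have hwE : w ∈ closure (⋃ n, EI H L n) := by rw [hEd]; trivial
  have hwP : w ∈ closure (pathComponent p) := by rw [hPd]; trivial
  obtain ⟨e', he', heE⟩ := mem_closure_iff.1 hwE _ isOpen_interior hw
  obtain ⟨x, hx, hxP⟩ := mem_closure_iff.1 hwP _ isOpen_interior hw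
  obtain ⟨m, hm⟩ := mem_iUnion.1 heE
  obtain ⟨Q₁, hQ₁, ha₁, hx₁, hev₁⟩ := hgood x (interior_subset hx)
  obtain ⟨Q₂, hQ₂, ha₂, he₂, hev₂⟩ := hgood e' (interior_subset he')
  have hQ : Cont (Q₁ ∪ Q₂) := hQ₁.union hQ₂ ⟨_, ha₁, ha₂⟩
  obtain ⟨l₀, hl₀⟩ := hev₁.union hev₂
  have hQE : Cont ((Q₁ ∪ Q₂) ∪ EI H L m) := hQ.union (EI_cont cH hLc m) ⟨e', Or.inr he₂, hm⟩
  obtain ⟨l₁, hl₁⟩ := hsq.irr hHU hdis hQE (Or.inl (Or.inl hx₁)) hxP
    ⟨y₁, Or.inr (EI_base hLH m hy₁), hy₁⟩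
  rcases hl₁ (max l₀ l₁) (le_max_right _ _) with h | h
  · exact hl₀ _ (le_max_left _ _) h
  · exact hEP m _ h (hsq.j _)

end Pool.FA57
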