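import Pool.Agent.Work.MP_36677d_fa.FA4
import Pool.Agent.Work.MP_36677d_fa.FA6

/-! # The theorem with an alternative for each ray (helper57) -/

set_option autoImplicit false

open Set Filter Topology

namespace Pool.FA57

open Pool.TL94 Pool.RY

variable {M : Type} [MetricSpace M]

theorem main2 [CompactSpace M] [ConnectedSpace M] (hT : TreeLike M)
    (hmaps : ∀ K : Set M, IsClosed K → IsConnected K → ∀ f : C(K, K), ∃ x, Joined x (f x))
    (hray : ∀ r : ℝ → M, ContinuousOn r (Ici 0) → InjOn r (Ici 0) →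
      (∃ y, Tendsto r atTop (𝓝 y)) ∨
      ((∃ s₂ : ℝ, ∀ s, s₂ ≤ s → r s ∉ ⋂ n : ℕ, closure (r '' Ici (n : ℝ))) ∧
        ∀ ε : ℝ, 0 < ε → ∀ s₁ : ℝ, ∃ s₀ : ℝ, 0 ≤ s₀ ∧ s₁ ≤ s₀ ∧ ∀ u, Joined (r 0) u →
          ¬ JoinedIn {r s₀}ᶜ (r 0) u → ∃ s, s₀ ≤ s ∧ dist u (r s) < ε) ∨
      (Countable (ZerothHomotopy M) ∧
        (ZerothHomotopy.mk '' ⋂ n : ℕ, closure (r '' Ici (n : ℝ))).Finite))
    (G : C(M × unitInterval, M × unitInterval)) : ∃ q, G q = q := by
  classical
  by_contra hG
  push Not at hG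
  have hHU := hT.hu
  obtain ⟨K, ⟨hKc, hKp, hKn, hKi⟩, hKmin⟩ := exists_min G
  have hK : Cont K := ⟨hKc.isCompact, hKp⟩
  have hcs : CompactSpace K := isCompact_iff_compactSpace.1 hKc.isCompact
  have hne : Nonempty K := hKn.to_subtype
  let G' : C(K × unitInterval, K × unitInterval) :=
    ⟨fun q => (⟨(G (q.1.1, q.2)).1, hKi _ q.1.2 q.2⟩, (G (q.1.1, q.2)).2), by
      refine Continuous.prodMk (Continuous.subtype_mk ?_ _) ?_
      · fun_prop
      · fun_prop⟩
  have hG' : ∀ q, G' q ≠ q := by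
    rintro ⟨x, t⟩ h
    apply hG (x.1, t)
    have h1 : (G' (x, t)).1.1 = x.1 := by rw [h]
    have h2 : (G' (x, t)).2 = t := by rw [h]
    exact Prod.ext h1 h2
  obtain ⟨v, e, δ, N, D⟩ := exists_dat G' hG'
  obtain ⟨p, hp⟩ := hmaps K hKc ⟨hKn, hKp⟩ ⟨fun x => (G' (x, 0)).1, by fun_prop⟩
  refine core2 (hu_sub hHU K) D ?_ p ?_ ?_
  · intro C hC hCn hCi
    have h1 : Inv G (Subtype.val '' C) := by
      refine ⟨(hC.cpt.image continuous_subtype_val).isClosed,
        hC.con.image _ continuous_subtype_val.continuousOn, hCn.image _, ?_⟩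
      rintro _ ⟨x, hx, rfl⟩ t
      have h2 := hCi x hx t.1 t.2
      simp only [projIcc_val] at h2
      exact ⟨_, h2, rfl⟩
    have h2 : K ⊆ Subtype.val '' C := hKmin h1 (by
      rintro _ ⟨x, -, rfl⟩
      exact x.2)
    ext x
    simp only [mem_univ, iff_true]
    obtain ⟨y, hy, hyx⟩ := h2 x.2
    rwa [← Subtype.ext hyx]
  · have h1 : (projIcc (0:ℝ) 1 zero_le_one 0 : unitInterval) = 0 := projIcc_left _
    simp only [h1]
    exact hp
  · intro r hr hri
    have hlim : ∀ x ∈ ⋂ n : ℕ, closure (r '' Ici (n : ℝ)),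
        (x : M) ∈ ⋂ n : ℕ, closure ((fun s => (r s : M)) '' Ici (n : ℝ)) := by
      intro x hx
      rw [mem_iInter] at hx ⊢
      intro n
      have h2 := image_closure_subset_closure_image continuous_subtype_val
        (mem_image_of_mem Subtype.val (hx n))
      rwa [image_image] at h2
    rcases hray (fun s => (r s : M)) (continuous_subtype_val.comp_continuousOn hr)
      (fun s hs t ht hst => hri hs ht (Subtype.ext hst)) with
      ⟨y, hy⟩ | ⟨⟨s₂, hs₂⟩, hthin⟩ | ⟨hcount, h1⟩
    · have hyK : y ∈ K := hKc.mem_of_tendsto hy (Eventually.of_forall fun s => (r s).2)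
      exact Or.inl ⟨⟨y, hyK⟩, tendsto_subtype_rng.2 hy⟩
    · refine Or.inr (Or.inl ⟨⟨s₂, fun s hs h => hs₂ s hs (hlim _ h)⟩, fun ε hε s₁ => ?_⟩)
      obtain ⟨s₀, h0, h1, h2⟩ := hthin ε hε s₁
      refine ⟨s₀, h0, h1, fun u hu hus => ?_⟩
      exact h2 u (hu.map continuous_subtype_val) (seg_not_joinedIn (seg_val hHU hK hus))
    · refine Or.inr (Or.inr ⟨?_, ?_⟩)
      · -- representatives of the path components
        obtain ⟨c, hc⟩ : ∃ c : ℕ → ZerothHomotopy M, Function.Surjective c := by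
          have : Nonempty (ZerothHomotopy M) := inferInstance
          exact exists_surjective_nat _
        refine ⟨fun n => if h : ∃ x : K, ZerothHomotopy.mk (x : M) = c n then h.choose else p, ?_⟩
        intro x
        obtain ⟨n, hn⟩ := hc (ZerothHomotopy.mk (x : M))
        have h : ∃ x : K, ZerothHomotopy.mk (x : M) = c n := ⟨x, hn.symm⟩
        refine ⟨n, ?_⟩
        simp only [dif_pos h]
        refine joined_sub hHU hK ?_
        exact Quotient.exact (h.choose_spec.trans hn)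
      · obtain ⟨τ, hτ⟩ : ∃ τ : ZerothHomotopy K → ZerothHomotopy M,
            ∀ x : K, τ (ZerothHomotopy.mk x) = ZerothHomotopy.mk (x : M) :=
          ⟨Quotient.map Subtype.val (fun x y hxy => Joined.map hxy continuous_subtype_val),
            fun _ => rfl⟩
        have hinj : Function.Injective τ := by
          intro x y hxy
          obtain ⟨x, rfl⟩ := ZerothHomotopy.mk_surjective x
          obtain ⟨y, rfl⟩ := ZerothHomotopy.mk_surjective y
          rw [hτ, hτ] at hxy
          exact Quotient.sound (joined_sub hHU hK (Quotient.exact hxy))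
        refine Set.Finite.of_finite_image (f := τ) ?_ hinj.injOn
        refine h1.subset ?_
        rintro _ ⟨_, ⟨x, hx, rfl⟩, rfl⟩
        rw [hτ]
        exact ⟨x, hlim x hx, rfl⟩

end Pool.FA57
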